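import Mathlib
import Pool.Agent.V11299.Cyc.Main4

set_option autoImplicit false

open Filter Topology

namespace Pool.Agent.Results.MP_2543de_nt.CousinInfty

/-- `m` is a cyclic number: `gcd(m, φ(m)) = 1` (note `gcd(0, φ(0)) = 0`). -/
def IsCyclicNumber (m : ℕ) : Prop := Nat.gcd m (Nat.totient m) = 1

/-- `c j` is the cyclic number number `j + 1` in increasing order: `c 0 = 1`, `c 1 = 2`, ... -/
noncomputable def c (j : ℕ) : ℕ := Nat.nth IsCyclicNumber j

/-- `C n`: the number of `j` with `n³ < c_j < c_{j+1} < (n+1)³` and `c_{j+1} - c_j = 4`. -/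
noncomputable def C (n : ℕ) : ℕ :=
  Set.ncard {j : ℕ | n ^ 3 < c j ∧ c (j + 1) < (n + 1) ^ 3 ∧ c (j + 1) = c j + 4}

/-- The number of cousin pairs of cyclic numbers between consecutive cubes tends to infinity. -/
theorem result : ∀ k : ℕ, ∃ N : ℕ, ∀ n : ℕ, N ≤ n → k ≤ C n := by
  intro k
  have h2 : 2 ∣ 4 := by norm_num
  have h1 := V11299.Cyc.main_asymp (g := 4) h2 (by norm_num) (by norm_num)
  have h3 := V11299.Cyc.ff_tendsto (g := 4) h2
  have h4 : ∀ᶠ n : ℕ in atTop, (1 : ℝ) / 2 < ((V11299.Cyc.TT 4 n).card : ℝ) /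
      (3 * (n : ℝ) ^ 2 * V11299.Cyc.dens {0, 4} (V11299.Cyc.Y0 (Real.log (Real.log n)))) :=
    h1.eventually_const_lt (by norm_num)
  have h5 := h3.eventually_ge_atTop (2 * (k : ℝ) + 1)
  obtain ⟨N, hN⟩ := Filter.eventually_atTop.mp ((h4.and h5).and (eventually_ge_atTop 1))
  refine ⟨N, fun n hn => ?_⟩
  obtain ⟨⟨h6, h7⟩, h8⟩ := hN n hn
  have h9 : C n = (V11299.Cyc.TT 4 n).card := V11299.Cyc.TT_card (by norm_num)
  have h10 := V11299.Cyc.ff_pos (g := 4) h2 h8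
  unfold V11299.Cyc.ff at h7 h10
  rw [lt_div_iff₀ h10] at h6
  have h11 : (k : ℝ) ≤ ((V11299.Cyc.TT 4 n).card : ℝ) := by linarith
  rw [h9]
  exact_mod_cast h11

end Pool.Agent.Results.MP_2543de_nt.CousinInfty
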